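import Mathlib

set_option autoImplicit false

open MeasureTheory Set Filter Topology

namespace Pool.Mink24

/-- closed midpoint-convex sets of a real topological vector space are convex -/
lemma convex_of_closed_mid {V : Type*} [AddCommGroup V] [Module ℝ V] [TopologicalSpace V]
    [IsTopologicalAddGroup V] [ContinuousSMul ℝ V] {S : Set V} (hS : IsClosed S)
    (hm : ∀ x ∈ S, ∀ y ∈ S, (1 / 2 : ℝ) • (x + y) ∈ S) : Convex ℝ S := by
  rw [convex_iff_forall_pos]
  intro x hx y hy a b ha hb hab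
  -- parameter set
  set g : ℝ → V := fun t => (1 - t) • x + t • y with hg
  have hgc : Continuous g := by fun_prop
  set T : Set ℝ := g ⁻¹' S with hT
  have hTc : IsClosed T := hS.preimage hgc
  have hTm : ∀ s ∈ T, ∀ t ∈ T, (s + t) / 2 ∈ T := by
    intro s hs t ht
    have := hm _ hs _ ht
    show g ((s + t) / 2) ∈ S
    convert this using 1
    simp only [hg]
    module
  have h0 : (0 : ℝ) ∈ T := by show g 0 ∈ S; simpa [hg] using hx
  have h1 : (1 : ℝ) ∈ T := by show g 1 ∈ S; simpa [hg] using hy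
  by_contra hcon
  have hbT : b ∉ T := by
    intro hb'
    apply hcon
    have : g b ∈ S := hb'
    simp only [hg] at this
    rwa [show 1 - b = a by linarith] at this
  have hb1 : b < 1 := by linarith
  set p := sSup (T ∩ Icc 0 b) with hp
  set q := sInf (T ∩ Icc b 1) with hq
  have ne1 : (T ∩ Icc 0 b).Nonempty := ⟨0, h0, le_rfl, hb.le⟩
  have ne2 : (T ∩ Icc b 1).Nonempty := ⟨1, h1, hb1.le, le_rfl⟩
  have bd1 : BddAbove (T ∩ Icc 0 b) := bddAbove_Icc.mono inter_subset_right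
  have bd2 : BddBelow (T ∩ Icc b 1) := bddBelow_Icc.mono inter_subset_right
  have hpT : p ∈ T ∩ Icc 0 b := (hTc.inter isClosed_Icc).csSup_mem ne1 bd1
  have hqT : q ∈ T ∩ Icc b 1 := (hTc.inter isClosed_Icc).csInf_mem ne2 bd2
  have hpb : p < b := lt_of_le_of_ne hpT.2.2 (fun h => hbT (h ▸ hpT.1))
  have hqb : b < q := lt_of_le_of_ne hqT.2.1 (fun h => hbT (h ▸ hqT.1))
  have hmid := hTm p hpT.1 q hqT.1
  rcases le_or_gt ((p + q) / 2) b with h | h
  · have := le_csSup bd1 ⟨hmid, by linarith [hpT.2.1], h⟩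
    linarith
  · have := csInf_le bd2 ⟨hmid, h.le, by linarith [hqT.2.2]⟩
    linarith

/-- An upper semicontinuous nonnegative function with the midpoint inequality is log-concave. -/
lemma logc {f : ℝ → ℝ} (f0 : ∀ s, 0 ≤ f s) (usc : UpperSemicontinuous f)
    (hm : ∀ s t, f s * f t ≤ f ((s + t) / 2) ^ 2) (s s' a b : ℝ) (ha : 0 < a) (hb : 0 < b)
    (hab : a + b = 1) : f s ^ a * f s' ^ b ≤ f (a * s + b * s') := by
  rcases (f0 s).eq_or_lt with h1 | h1
  · rw [← h1, Real.zero_rpow ha.ne', zero_mul]; exact f0 _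
  rcases (f0 s').eq_or_lt with h2 | h2
  · rw [← h2, Real.zero_rpow hb.ne', mul_zero]; exact f0 _
  -- hypograph
  set S : Set (ℝ × ℝ) := {p | Real.exp p.2 ≤ f p.1} with hS
  have hSc : IsClosed S := by
    rw [← isOpen_compl_iff, isOpen_iff_mem_nhds]
    rintro ⟨x, y⟩ hxy
    have hxy' : f x < Real.exp y := by
      simpa [hS] using hxy
    obtain ⟨m, hm1, hm2⟩ := exists_between hxy'
    have e1 : ∀ᶠ x' in 𝓝 x, f x' < m := usc x m hm1
    have e2 : ∀ᶠ y' in 𝓝 y, m < Real.exp y' :=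
      Real.continuous_exp.continuousAt.eventually_const_lt hm2
    have e3 : ∀ᶠ p : ℝ × ℝ in 𝓝 (x, y), f p.1 < m ∧ m < Real.exp p.2 := by
      rw [nhds_prod_eq]
      exact e1.prod_mk e2
    filter_upwards [e3] with p hp
    simp only [hS, mem_compl_iff, mem_ofPred_eq, not_le]
    exact hp.1.trans hp.2
  have hSm : ∀ x ∈ S, ∀ y ∈ S, (1 / 2 : ℝ) • (x + y) ∈ S := by
    rintro ⟨x, y⟩ hx ⟨x', y'⟩ hx'
    simp only [hS, mem_ofPred_eq] at hx hx'
    have h3 := hm x x'
    have h4 : Real.exp y * Real.exp y' ≤ f x * f x' :=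
      mul_le_mul hx hx' (Real.exp_pos _).le (f0 _)
    have h5 : Real.exp ((y + y') / 2) ^ 2 ≤ f ((x + x') / 2) ^ 2 := by
      refine le_trans (le_of_eq ?_) (h4.trans h3)
      rw [← Real.exp_add, ← Real.exp_nat_mul]
      congr 1; push_cast; ring
    have h6 : Real.exp ((y + y') / 2) ≤ f ((x + x') / 2) :=
      le_of_sq_le_sq h5 (f0 _)
    show Real.exp ((1 / 2 : ℝ) • ((x, y) + (x', y'))).2 ≤ f ((1 / 2 : ℝ) • ((x, y) + (x', y'))).1
    simp only [Prod.mk_add_mk, Prod.smul_mk, smul_eq_mul]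
    convert h6 using 2 <;> ring_nf
  have hconv := convex_of_closed_mid hSc hSm
  have m1 : (s, Real.log (f s)) ∈ S := by simp [hS, Real.exp_log h1]
  have m2 : (s', Real.log (f s')) ∈ S := by simp [hS, Real.exp_log h2]
  have m3 := hconv m1 m2 ha.le hb.le hab
  simp only [hS, Prod.smul_mk, Prod.mk_add_mk, smul_eq_mul, mem_ofPred_eq] at m3
  refine le_trans (le_of_eq ?_) m3
  rw [Real.exp_add, Real.rpow_def_of_pos h1, Real.rpow_def_of_pos h2]
  congr 1 <;> ring_nf

end Pool.Mink24
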