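import Mathlib

set_option autoImplicit false

open MeasureTheory Set Filter Topology

namespace Pool.Mink24

/-- Telescoping. -/
lemma tele {q p : ℝ → ℝ} {L : ℝ} (hp : ContinuousOn p (Iio L))
    (h : ∀ x δ : ℝ, 0 < δ → x + δ < L → q (x + δ) - q x ≤ p x - p (x - δ))
    {y y' : ℝ} (hy : y < y') (hL : y' < L) : q y' - q y ≤ p y' - p y := by
  have key : ∀ N : ℕ, q y' - q y ≤ p (y' - (y' - y) / (N + 1)) - p (y - (y' - y) / (N + 1)) := by
    intro N
    set δ : ℝ := (y' - y) / (N + 1) with hδ
    have hN : (0 : ℝ) < N + 1 := by positivity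
    have hδ0 : 0 < δ := div_pos (by linarith) hN
    have hNδ : (N + 1 : ℝ) * δ = y' - y := by rw [hδ]; field_simp
    have ind : ∀ k : ℕ, k ≤ N + 1 → q (y + k * δ) - q y ≤ p (y + k * δ - δ) - p (y - δ) := by
      intro k
      induction k with
      | zero => intro _; simp
      | succ k ih =>
        intro hk
        have h1 := ih (by omega)
        have hk' : (k : ℝ) + 1 ≤ N + 1 := by exact_mod_cast hk
        have h2 := h (y + k * δ) δ hδ0 (by nlinarith [mul_le_mul_of_nonneg_right hk' hδ0.le])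
        push_cast
        have e1 : y + (k + 1 : ℝ) * δ = y + k * δ + δ := by ring
        have e2 : y + (k + 1 : ℝ) * δ - δ = y + k * δ := by ring
        rw [e2, e1]
        linarith
    have h3 := ind (N + 1) le_rfl
    push_cast at h3
    have e3 : y + (N + 1 : ℝ) * δ = y' := by rw [hNδ]; ring
    rw [e3] at h3
    exact h3
  have hlim : Tendsto (fun N : ℕ => (y' - y) / ((N : ℝ) + 1)) atTop (𝓝 0) := by
    have := tendsto_one_div_add_atTop_nhds_zero_nat (𝕜 := ℝ)
    have h2 := this.const_mul (y' - y)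
    simpa [div_eq_mul_inv] using h2
  have c1 : Tendsto (fun N : ℕ => p (y' - (y' - y) / ((N : ℝ) + 1))) atTop (𝓝 (p y')) := by
    have hc : ContinuousAt p y' := hp.continuousAt (Iio_mem_nhds hL)
    have := (tendsto_const_nhds (x := y')).sub hlim
    rw [sub_zero] at this
    exact hc.tendsto.comp this
  have c2 : Tendsto (fun N : ℕ => p (y - (y' - y) / ((N : ℝ) + 1))) atTop (𝓝 (p y)) := by
    have hc : ContinuousAt p y := hp.continuousAt (Iio_mem_nhds (hy.trans hL))
    have := (tendsto_const_nhds (x := y)).sub hlim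
    rw [sub_zero] at this
    exact hc.tendsto.comp this
  exact ge_of_tendsto' (c1.sub c2) key

/-- A nonempty bounded convex set of reals. -/
lemma convex_real {A : Set ℝ} (hA : Convex ℝ A) (hne : A.Nonempty) (hb : BddBelow A)
    (ha : BddAbove A) : Ioo (sInf A) (sSup A) ⊆ A ∧ A ⊆ Icc (sInf A) (sSup A) ∧
      volume A = ENNReal.ofReal (sSup A - sInf A) := by
  have h1 : Ioo (sInf A) (sSup A) ⊆ A := by
    intro z hz
    obtain ⟨s, hs, hs'⟩ := exists_lt_of_csInf_lt hne hz.1
    obtain ⟨t, ht, ht'⟩ := exists_lt_of_lt_csSup hne hz.2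
    exact hA.ordConnected.out hs ht ⟨hs'.le, ht'.le⟩
  have h2 : A ⊆ Icc (sInf A) (sSup A) := fun z hz => ⟨csInf_le hb hz, le_csSup ha hz⟩
  refine ⟨h1, h2, le_antisymm ?_ ?_⟩
  · calc volume A ≤ volume (Icc (sInf A) (sSup A)) := measure_mono h2
      _ = _ := Real.volume_Icc
  · calc _ = volume (Ioo (sInf A) (sSup A)) := Real.volume_Ioo.symm
      _ ≤ _ := measure_mono h1

end Pool.Mink24
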