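import Mathlib
import Pool.Agent.Mink24.Sym1

set_option autoImplicit false

open MeasureTheory Set Filter Topology

namespace Pool.Mink24

section
variable {f h : ℝ → ℝ}

/-- the data -/
structure Dat (f h : ℝ → ℝ) (R L : ℝ) : Prop where
  f0 : ∀ s, 0 ≤ f s
  h0 : ∀ s, 0 ≤ h s
  flog : ∀ s s' a b : ℝ, 0 < a → 0 < b → a + b = 1 → f s ^ a * f s' ^ b ≤ f (a * s + b * s')
  hconv : ∀ l : ℝ, 0 < l → Convex ℝ {s | l < h s}
  fh : ∀ s s' : ℝ, √(f s * f s') ≤ h ((s - s') / 2)
  bd : ∀ s, f s ≠ 0 → |s| ≤ R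
  fin : ∫⁻ s, ENNReal.ofReal (f s) ≠ ⊤
  hint : ∫⁻ s, ENNReal.ofReal (h s) ≤ ∫⁻ s, ENNReal.ofReal (f s)
  hL : ∀ x : ℝ, x < L ↔ ∃ s, Real.exp x < f s

/-- level set -/
def A (f : ℝ → ℝ) (x : ℝ) : Set ℝ := {s | Real.exp x < f s}

noncomputable def Q (f : ℝ → ℝ) (x : ℝ) : ℝ := sSup (A f x)
noncomputable def P (f : ℝ → ℝ) (x : ℝ) : ℝ := sInf (A f x)

variable {R L : ℝ}

lemma Dat.lev (d : Dat f h R L) {l : ℝ} (hl : 0 < l) : Convex ℝ {s | l < f s} := by
  rw [convex_iff_forall_pos]
  intro s hs s' hs' a b ha hb hab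
  have h1 := d.flog s s' a b ha hb hab
  have h2 : l ^ a * l ^ b < f s ^ a * f s' ^ b :=
    mul_lt_mul'' (Real.rpow_lt_rpow hl.le hs ha) (Real.rpow_lt_rpow hl.le hs' hb)
      (by positivity) (by positivity)
  rw [← Real.rpow_add hl, hab, Real.rpow_one] at h2
  exact h2.trans_le h1

lemma Dat.levb (d : Dat f h R L) (x : ℝ) : A f x ⊆ Icc (-R) R := by
  intro s hs
  have hs' : Real.exp x < f s := hs
  exact abs_le.1 (d.bd s ((Real.exp_pos x).trans hs').ne')

lemma Dat.bb (d : Dat f h R L) (x : ℝ) : BddBelow (A f x) := BddBelow.mono (d.levb x) bddBelow_Icc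
lemma Dat.ba (d : Dat f h R L) (x : ℝ) : BddAbove (A f x) := BddAbove.mono (d.levb x) bddAbove_Icc
lemma Dat.ne (d : Dat f h R L) {x : ℝ} (hx : x < L) : (A f x).Nonempty := (d.hL x).1 hx
lemma Dat.cr (d : Dat f h R L) {x : ℝ} (hx : x < L) :
    Ioo (P f x) (Q f x) ⊆ A f x ∧ A f x ⊆ Icc (P f x) (Q f x) ∧
      volume (A f x) = ENNReal.ofReal (Q f x - P f x) :=
  convex_real (d.lev (Real.exp_pos x)) (d.ne hx) (d.bb x) (d.ba x)

lemma Dat.P_le_Q (d : Dat f h R L) {x : ℝ} (hx : x < L) : P f x ≤ Q f x := by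
  obtain ⟨s, hs⟩ := d.ne hx
  exact ((d.cr hx).2.1 hs).1.trans ((d.cr hx).2.1 hs).2

lemma Dat.concQ (d : Dat f h R L) : ConcaveOn ℝ (Iio L) (Q f) := by
  rw [concaveOn_iff_forall_pos]
  refine ⟨convex_Iio L, ?_⟩
  intro x hx y hy a b ha hb hab
  simp only [smul_eq_mul]
  have hxy : a * x + b * y < L := by
    have := (convex_Iio L) hx hy ha.le hb.le hab
    simpa using this
  have key : ∀ s ∈ A f x, ∀ t ∈ A f y, a * s + b * t ≤ Q f (a * x + b * y) := by
    intro s hs t ht
    apply le_csSup (d.ba _)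
    have h1 := d.flog s t a b ha hb hab
    have h2 : Real.exp x ^ a * Real.exp y ^ b < f s ^ a * f t ^ b :=
      mul_lt_mul'' (Real.rpow_lt_rpow (Real.exp_pos x).le hs ha)
        (Real.rpow_lt_rpow (Real.exp_pos y).le ht hb) (by positivity) (by positivity)
    rw [← Real.exp_mul, ← Real.exp_mul, ← Real.exp_add, mul_comm x, mul_comm y] at h2
    exact h2.trans_le h1
  have k2 : ∀ t ∈ A f y, a * Q f x + b * t ≤ Q f (a * x + b * y) := by
    intro t ht
    have : Q f x ≤ (Q f (a * x + b * y) - b * t) / a := by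
      apply csSup_le (d.ne hx)
      intro s hs
      rw [le_div_iff₀ ha]
      linarith [key s hs t ht]
    rw [le_div_iff₀ ha] at this
    linarith
  have : Q f y ≤ (Q f (a * x + b * y) - a * Q f x) / b := by
    apply csSup_le (d.ne hy)
    intro s hs
    rw [le_div_iff₀ hb]
    linarith [k2 s hs]
  rw [le_div_iff₀ hb] at this
  linarith

lemma Dat.concP (d : Dat f h R L) : ConcaveOn ℝ (Iio L) (fun x => - P f x) := by
  rw [concaveOn_iff_forall_pos]
  refine ⟨convex_Iio L, ?_⟩
  intro x hx y hy a b ha hb hab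
  simp only [smul_eq_mul]
  have hxy : a * x + b * y < L := by
    have := (convex_Iio L) hx hy ha.le hb.le hab
    simpa using this
  have key : ∀ s ∈ A f x, ∀ t ∈ A f y, P f (a * x + b * y) ≤ a * s + b * t := by
    intro s hs t ht
    apply csInf_le (d.bb _)
    have h1 := d.flog s t a b ha hb hab
    have h2 : Real.exp x ^ a * Real.exp y ^ b < f s ^ a * f t ^ b :=
      mul_lt_mul'' (Real.rpow_lt_rpow (Real.exp_pos x).le hs ha)
        (Real.rpow_lt_rpow (Real.exp_pos y).le ht hb) (by positivity) (by positivity)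
    rw [← Real.exp_mul, ← Real.exp_mul, ← Real.exp_add, mul_comm x, mul_comm y] at h2
    exact h2.trans_le h1
  have k2 : ∀ t ∈ A f y, P f (a * x + b * y) ≤ a * P f x + b * t := by
    intro t ht
    have : (P f (a * x + b * y) - b * t) / a ≤ P f x := by
      apply le_csInf (d.ne hx)
      intro s hs
      rw [div_le_iff₀ ha]
      linarith [key s hs t ht]
    rw [div_le_iff₀ ha] at this
    linarith
  have : (P f (a * x + b * y) - a * P f x) / b ≤ P f y := by
    apply le_csInf (d.ne hy)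
    intro s hs
    rw [div_le_iff₀ hb]
    linarith [k2 s hs]
  rw [div_le_iff₀ hb] at this
  linarith

/-- centred interval inside the level set of `h` -/
lemma Dat.sub_h (d : Dat f h R L) {x : ℝ} (hx : x < L) :
    Ioo (-((Q f x - P f x) / 2)) ((Q f x - P f x) / 2) ∪ {0} ⊆ {z | Real.exp x < h z} := by
  have key : ∀ s ∈ A f x, ∀ t ∈ A f x, (s - t) / 2 ∈ {z | Real.exp x < h z} := by
    intro s hs t ht
    have hs' : Real.exp x < f s := hs
    have ht' : Real.exp x < f t := ht
    have h1 := d.fh s t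
    have h2 : Real.exp x < √(f s * f t) := by
      apply Real.lt_sqrt_of_sq_lt
      nlinarith [Real.exp_pos x]
    exact h2.trans_le h1
  rintro z (hz | hz)
  · have hc := (d.cr hx).1
    have e : z = (((P f x + Q f x) / 2 + z) - ((P f x + Q f x) / 2 - z)) / 2 := by ring
    rw [e]
    apply key
    · apply hc; constructor <;> linarith [hz.1, hz.2]
    · apply hc; constructor <;> linarith [hz.1, hz.2]
  · obtain ⟨s, hs⟩ := d.ne hx
    have := key s hs s hs
    rw [mem_singleton_iff.1 hz]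
    simpa using this

lemma Dat.sub_h' (d : Dat f h R L) {x z : ℝ} (hx : x < L) (hz : Real.exp x < h z)
    (hv : volume {z | Real.exp x < h z} = volume (A f x)) : z ≤ (Q f x - P f x) / 2 := by
  by_contra hlt
  push Not at hlt
  have hPQ := d.P_le_Q hx
  have hsub := d.sub_h hx
  have h1 : Ioo (-((Q f x - P f x) / 2)) z ⊆ {z | Real.exp x < h z} := by
    intro w hw
    by_cases hw2 : w < (Q f x - P f x) / 2
    · exact hsub (Or.inl ⟨hw.1, hw2⟩)
    · push Not at hw2
      exact (d.hconv _ (Real.exp_pos x)).ordConnected.out (hsub (Or.inr rfl)) hz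
        ⟨by linarith, hw.2.le⟩
  have h2 := measure_mono (μ := volume) h1
  rw [hv, (d.cr hx).2.2, Real.volume_Ioo, ENNReal.ofReal_le_ofReal_iff (by linarith)] at h2
  linarith

lemma meas_of_lev {g : ℝ → ℝ} (g0 : ∀ s, 0 ≤ g s) (hg : ∀ l : ℝ, 0 < l → Convex ℝ {s | l < g s}) :
    Measurable g := by
  apply measurable_of_Ioi
  intro l
  rcases lt_trichotomy l 0 with hl | hl | hl
  · have : g ⁻¹' Ioi l = univ := by
      ext s; simp only [mem_preimage, mem_Ioi, mem_univ, iff_true]; exact hl.trans_le (g0 s)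
    rw [this]; exact MeasurableSet.univ
  · have : g ⁻¹' Ioi l = ⋃ n : ℕ, {s | 1 / ((n : ℝ) + 1) < g s} := by
      ext s
      simp only [mem_preimage, mem_Ioi, mem_iUnion, mem_ofPred_eq, hl]
      constructor
      · intro hs; exact exists_nat_one_div_lt hs
      · rintro ⟨n, hn⟩; exact lt_trans (by positivity) hn
    rw [this]
    exact MeasurableSet.iUnion fun n => (hg _ (by positivity)).ordConnected.measurableSet
  · exact (hg l hl).ordConnected.measurableSet

lemma Dat.vol_le (d : Dat f h R L) {l : ℝ} (hl : 0 < l) :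
    volume {s | l < f s} ≤ volume {s | l < h s} := by
  by_cases hne : ∃ s, l < f s
  · obtain ⟨s, hs⟩ := hne
    have hx : Real.log l < L := (d.hL _).2 ⟨s, by rwa [Real.exp_log hl]⟩
    have h1 := measure_mono (μ := volume) (d.sub_h hx)
    have h2 := (d.cr hx).2.2
    unfold A at h2
    rw [Real.exp_log hl] at h1 h2
    rw [h2]
    refine le_trans ?_ h1
    refine le_trans ?_ (measure_mono subset_union_left)
    rw [Real.volume_Ioo]
    apply ENNReal.ofReal_le_ofReal
    linarith
  · have : {s | l < f s} = ∅ := by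
      ext s; simp only [mem_ofPred_eq, mem_empty_iff_false, iff_false]; exact fun hs => hne ⟨s, hs⟩
    rw [this]; simp

lemma Dat.ae (d : Dat f h R L) :
    ∀ᵐ l ∂(volume.restrict (Ioi (0 : ℝ))), volume {s | l < f s} = volume {s | l < h s} := by
  have hf := meas_of_lev d.f0 (fun l hl => d.lev hl)
  have hh := meas_of_lev d.h0 d.hconv
  have e1 := lintegral_eq_lintegral_meas_lt volume (Eventually.of_forall d.f0) hf.aemeasurable
  have e2 := lintegral_eq_lintegral_meas_lt volume (Eventually.of_forall d.h0) hh.aemeasurable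
  apply ae_eq_of_ae_le_of_lintegral_le
  · refine (ae_restrict_iff' measurableSet_Ioi).2 (Eventually.of_forall ?_)
    intro l hl
    exact d.vol_le hl
  · rw [← e1]; exact d.fin
  · apply Measurable.aemeasurable
    apply Antitone.measurable
    intro a b hab
    exact measure_mono fun s (hs : b < h s) => hab.trans_lt hs
  · rw [← e1, ← e2]; exact d.hint

/-- Good levels accumulate from below. -/
lemma Dat.good (d : Dat f h R L) {m x : ℝ} (hm : m < x) :
    ∃ y, m < y ∧ y < x ∧ volume {z | Real.exp y < h z} = volume (A f y) := by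
  have h1 : volume.restrict (Ioi (0 : ℝ)) (Ioo (Real.exp m) (Real.exp x)) ≠ 0 := by
    rw [Measure.restrict_apply measurableSet_Ioo, inter_eq_self_of_subset_left, Real.volume_Ioo]
    · simp only [ne_eq, ENNReal.ofReal_eq_zero, not_le, sub_pos]
      exact Real.exp_lt_exp.2 hm
    · intro z hz; exact (Real.exp_pos m).trans hz.1
  have h2 : ∃ l ∈ Ioo (Real.exp m) (Real.exp x), volume {s | l < f s} = volume {s | l < h s} := by
    by_contra hcon
    push Not at hcon
    apply h1
    exact measure_mono_null hcon (ae_iff.1 d.ae)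
  obtain ⟨l, hl, hl'⟩ := h2
  have hl0 : 0 < l := (Real.exp_pos m).trans hl.1
  refine ⟨Real.log l, (Real.lt_log_iff_exp_lt hl0).2 hl.1, (Real.log_lt_iff_lt_exp hl0).2 hl.2, ?_⟩
  unfold A
  rw [Real.exp_log hl0, hl']

/-- Key inequality. -/
lemma Dat.star (d : Dat f h R L) {x y m : ℝ} (hx : x < L) (hy : y < L) (hm : x + y = 2 * m) :
    Q f x - P f y ≤ Q f m - P f m := by
  have hmL : m < L := by linarith
  have key : ∀ s ∈ A f x, ∀ t ∈ A f y, s - t ≤ Q f m - P f m := by
    intro s hs t ht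
    have hs' : Real.exp x < f s := hs
    have ht' : Real.exp y < f t := ht
    have h1 : Real.exp m < h ((s - t) / 2) := by
      refine lt_of_lt_of_le ?_ (d.fh s t)
      apply Real.lt_sqrt_of_sq_lt
      rw [← Real.exp_nat_mul]
      push_cast
      rw [← hm, Real.exp_add]
      exact mul_lt_mul'' hs' ht' (Real.exp_pos x).le (Real.exp_pos y).le
    have h2 : ∀ w < m, ∃ z, w < z ∧ z < m ∧ s - t ≤ Q f z - P f z := by
      intro w hw
      obtain ⟨z, hz1, hz2, hz3⟩ := d.good hw
      refine ⟨z, hz1, hz2, ?_⟩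
      have := d.sub_h' (hz2.trans hmL) (lt_trans (Real.exp_lt_exp.2 hz2) h1) hz3
      linarith
    have hc : ContinuousAt (fun z => Q f z - P f z) m := by
      have c1 := (d.concQ.continuousOn isOpen_Iio).continuousAt (Iio_mem_nhds hmL)
      have c2 := (d.concP.continuousOn isOpen_Iio).continuousAt (Iio_mem_nhds hmL)
      have e : (fun z => Q f z - P f z) = Q f + fun x => - P f x := by
        ext z; simp [sub_eq_add_neg]
      rw [e]; exact c1.add c2
    by_contra hcon
    push Not at hcon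
    have h3 : ∀ᶠ z in 𝓝 m, Q f z - P f z < s - t := hc.eventually_lt_const hcon
    obtain ⟨a, b, hab, hsub⟩ := (mem_nhds_iff_exists_Ioo_subset).1 h3
    obtain ⟨z, hz1, hz2, hz3⟩ := h2 a hab.1
    have := hsub ⟨hz1, hz2.trans hab.2⟩
    simp only [mem_ofPred_eq] at this
    linarith
  have k2 : ∀ t ∈ A f y, Q f x ≤ Q f m - P f m + t := by
    intro t ht
    apply csSup_le (d.ne hx)
    intro s hs
    linarith [key s hs t ht]
  have k3 : Q f x - (Q f m - P f m) ≤ P f y := by
    apply le_csInf (d.ne hy)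
    intro t ht
    linarith [k2 t ht]
  linarith

lemma Dat.const (d : Dat f h R L) {y y' : ℝ} (hy : y < y') (hL : y' < L) :
    Q f y' + P f y' = Q f y + P f y := by
  have cQ := d.concQ.continuousOn isOpen_Iio
  have cP := d.concP.continuousOn isOpen_Iio
  have h1 := tele (q := Q f) (p := fun x => - P f x) cP (fun x δ hδ hx => by
    have := d.star (x := x + δ) (y := x - δ) (m := x) hx (by linarith) (by ring)
    linarith) hy hL
  have h2 := tele (q := fun x => - P f x) (p := Q f) cQ (fun x δ hδ hx => by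
    have := d.star (x := x - δ) (y := x + δ) (m := x) (by linarith) hx (by ring)
    linarith) hy hL
  linarith

lemma Dat.exists_c (d : Dat f h R L) : ∃ c : ℝ, ∀ x < L, Q f x + P f x = 2 * c := by
  refine ⟨(Q f (L - 1) + P f (L - 1)) / 2, ?_⟩
  intro x hx
  rcases lt_trichotomy x (L - 1) with h1 | h1 | h1
  · have := d.const h1 (by linarith)
    linarith
  · rw [h1]; ring
  · have := d.const h1 hx
    linarith

lemma Dat.exists_level (d : Dat f h R L) {s : ℝ} (hs : 0 < f s) : ∃ x < L, s ∈ A f x := by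
  refine ⟨Real.log (f s / 2), ?_, ?_⟩
  · rw [d.hL]
    exact ⟨s, by rw [Real.exp_log (by linarith)]; linarith⟩
  · show Real.exp _ < f s
    rw [Real.exp_log (by linarith)]; linarith

lemma Dat.sup_inf (d : Dat f h R L) (hpos : ∃ s, 0 < f s) {c : ℝ}
    (hc : ∀ x < L, Q f x + P f x = 2 * c) :
    sSup {s | 0 < f s} + sInf {s | 0 < f s} = 2 * c := by
  have hb : {s | 0 < f s} ⊆ Icc (-R) R := fun s hs => abs_le.1 (d.bd s (ne_of_gt hs))
  have ba : BddAbove {s | 0 < f s} := bddAbove_Icc.mono hb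
  have bb : BddBelow {s | 0 < f s} := bddBelow_Icc.mono hb
  have hsub : ∀ x, A f x ⊆ {s | 0 < f s} := fun x s hs => (Real.exp_pos x).trans hs
  apply le_antisymm
  · have : sSup {s | 0 < f s} ≤ 2 * c - sInf {s | 0 < f s} := by
      apply csSup_le hpos
      intro s hs
      obtain ⟨x, hx, hsx⟩ := d.exists_level hs
      have h1 : s ≤ Q f x := le_csSup (d.ba x) hsx
      have h2 : sInf {s | 0 < f s} ≤ P f x := csInf_le_csInf bb (d.ne hx) (hsub x)
      linarith [hc x hx]
    linarith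
  · have : 2 * c - sSup {s | 0 < f s} ≤ sInf {s | 0 < f s} := by
      apply le_csInf hpos
      intro s hs
      obtain ⟨x, hx, hsx⟩ := d.exists_level hs
      have h1 : P f x ≤ s := csInf_le (d.bb x) hsx
      have h2 : Q f x ≤ sSup {s | 0 < f s} := csSup_le_csSup ba (d.ne hx) (hsub x)
      linarith [hc x hx]
    linarith

lemma Dat.ae_symm (d : Dat f h R L) {c : ℝ} (hc : ∀ x < L, Q f x + P f x = 2 * c) :
    ∀ᵐ s, f (2 * c - s) = f s := by
  -- exceptional set: endpoints of rational levels, and their reflections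
  set E : Set ℝ := ⋃ r : ℚ, ({P f (Real.log r), Q f (Real.log r)} : Set ℝ) with hE
  have hEc : E.Countable := countable_iUnion fun r => (Set.toFinite _).countable
  have hnull : volume E = 0 := hEc.measure_zero volume
  have key : ∀ s, s ∉ E → f s ≤ f (2 * c - s) := by
    intro s hs
    by_contra hlt
    push Not at hlt
    obtain ⟨r, hr1, hr2⟩ := exists_rat_btwn hlt
    have hr0 : (0 : ℝ) < r := (d.f0 _).trans_lt hr1
    have hx : Real.log r < L := (d.hL _).2 ⟨s, by rwa [Real.exp_log hr0]⟩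
    have hsA : s ∈ A f (Real.log r) := by show Real.exp _ < _; rwa [Real.exp_log hr0]
    have h1 := (d.cr hx).2.1 hsA
    have hsP : s ≠ P f (Real.log r) := fun hh => hs (mem_iUnion.2 ⟨r, by simp [hh]⟩)
    have hsQ : s ≠ Q f (Real.log r) := fun hh => hs (mem_iUnion.2 ⟨r, by simp [hh]⟩)
    have hcx := hc _ hx
    have h2 : 2 * c - s ∈ A f (Real.log r) := by
      apply (d.cr hx).1
      have i1 : P f (Real.log r) < s := lt_of_le_of_ne h1.1 (Ne.symm hsP)
      have i2 : s < Q f (Real.log r) := lt_of_le_of_ne h1.2 hsQ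
      constructor <;> linarith
    have h3 : Real.exp (Real.log r) < f (2 * c - s) := h2
    rw [Real.exp_log hr0] at h3
    linarith
  have a1 : ∀ᵐ s, s ∉ E := measure_eq_zero_iff_ae_notMem.1 hnull
  have a2 : ∀ᵐ s : ℝ, 2 * c - s ∉ E := by
    have hmp : MeasurePreserving (fun s : ℝ => 2 * c - s) volume volume :=
      Measure.measurePreserving_sub_left volume (2 * c)
    exact hmp.quasiMeasurePreserving.ae a1
  filter_upwards [a1, a2] with s h1 h2
  apply le_antisymm
  · have := key _ h2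
    rwa [sub_sub_cancel] at this
  · exact key _ h1

end

/-- One-dimensional symmetry theorem. -/
theorem sym1 {f h : ℝ → ℝ} (f0 : ∀ s, 0 ≤ f s) (h0 : ∀ s, 0 ≤ h s)
    (flog : ∀ s s' a b : ℝ, 0 < a → 0 < b → a + b = 1 → f s ^ a * f s' ^ b ≤ f (a * s + b * s'))
    (hconv : ∀ l : ℝ, 0 < l → Convex ℝ {s | l < h s})
    (fh : ∀ s s' : ℝ, √(f s * f s') ≤ h ((s - s') / 2))
    {R : ℝ} (bd : ∀ s, f s ≠ 0 → |s| ≤ R) {C : ℝ} (fb : ∀ s, f s ≤ C)
    (hint : ∫⁻ s, ENNReal.ofReal (h s) ≤ ∫⁻ s, ENNReal.ofReal (f s))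
    (pos : ∃ s, 0 < f s) :
    ∃ c : ℝ, (∀ᵐ s, f (2 * c - s) = f s) ∧ sSup {s | 0 < f s} + sInf {s | 0 < f s} = 2 * c := by
  have hb : BddAbove (range f) := ⟨C, by rintro _ ⟨s, rfl⟩; exact fb s⟩
  obtain ⟨s0, hs0⟩ := pos
  have hsup : 0 < sSup (range f) := hs0.trans_le (le_csSup hb ⟨s0, rfl⟩)
  have d : Dat f h R (Real.log (sSup (range f))) := by
    refine ⟨f0, h0, flog, hconv, fh, bd, ?_, hint, ?_⟩
    · have h1 : ∀ s, ENNReal.ofReal (f s) ≤ (Icc (-R) R).indicator (fun _ => ENNReal.ofReal C) s := by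
        intro s
        by_cases hs : f s = 0
        · simp [hs]
        · have hm : s ∈ Icc (-R) R := abs_le.1 (bd s hs)
          rw [indicator_of_mem hm]
          exact ENNReal.ofReal_le_ofReal (fb s)
      refine ne_top_of_le_ne_top ?_ (lintegral_mono h1)
      rw [lintegral_indicator measurableSet_Icc, setLIntegral_const, Real.volume_Icc]
      exact ENNReal.mul_ne_top ENNReal.ofReal_ne_top ENNReal.ofReal_ne_top
    · intro x
      rw [Real.lt_log_iff_exp_lt hsup, lt_csSup_iff hb ⟨_, ⟨s0, rfl⟩⟩]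
      simp
  obtain ⟨c, hc⟩ := d.exists_c
  exact ⟨c, d.ae_symm hc, d.sup_inf ⟨s0, hs0⟩ hc⟩

end Pool.Mink24
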