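import Mathlib
import Pool.Agent.PT57.Sec
import Pool.Agent.Mink24.Sym1b
import Pool.Agent.Mink24.LogC

set_option autoImplicit false
set_option linter.unusedSectionVars false

open MeasureTheory Set Filter Topology
open scoped Pointwise ENNReal RealInnerProductSpace

namespace Pool.Mink24

open PT57

variable {E : Type*} [NormedAddCommGroup E] [InnerProductSpace ℝ E] [FiniteDimensional ℝ E]
  [MeasurableSpace E] [BorelSpace E]

lemma inner_pt {u : E} (hu : ‖u‖ = 1) (s : ℝ) (y : (ℝ ∙ u)ᗮ) : ⟪u, s • u + (y : E)⟫ = s := by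
  have := mem_perp_iff.mp y.2
  rw [inner_add_right, inner_smul_right, this, real_inner_self_eq_norm_sq, hu]
  ring

lemma abs_le_norm_pt {u : E} (hu : ‖u‖ = 1) (s : ℝ) (y : (ℝ ∙ u)ᗮ) : |s| ≤ ‖s • u + (y : E)‖ := by
  have h := abs_real_inner_le_norm u (s • u + (y : E))
  rwa [inner_pt hu, hu, one_mul] at h

lemma norm_le_norm_pt {u : E} (s : ℝ) (y : (ℝ ∙ u)ᗮ) : ‖y‖ ≤ ‖s • u + (y : E)‖ := by
  have h1 : ⟪(y : E), s • u + (y : E)⟫ = ‖(y : E)‖ ^ 2 := by
    have := mem_perp_iff.mp y.2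
    rw [inner_add_right, inner_smul_right, real_inner_comm, this, real_inner_self_eq_norm_sq]
    ring
  have h2 := real_inner_le_norm (y : E) (s • u + (y : E))
  rw [h1] at h2
  have h3 : ‖(y : E)‖ = ‖y‖ := rfl
  rw [h3] at h2
  by_contra hlt
  push Not at hlt
  have : 0 < ‖y‖ := (norm_nonneg _).trans_lt hlt
  nlinarith

lemma sec_bd {u : E} (hu : ‖u‖ = 1) {K : Set E} {R : ℝ} (hR : K ⊆ Metric.closedBall 0 R) {s : ℝ}
    (hs : sec u K s ≠ 0) : |s| ≤ R := by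
  obtain ⟨y, hy⟩ := nonempty_of_measure_ne_zero hs
  have := hR hy
  rw [mem_closedBall_zero_iff] at this
  exact (abs_le_norm_pt hu s y).trans this

lemma sec_le_ball {u : E} {K : Set E} {R : ℝ} (hR : K ⊆ Metric.closedBall 0 R) (s : ℝ) :
    sec u K s ≤ volume (Metric.closedBall (0 : (ℝ ∙ u)ᗮ) R) := by
  apply measure_mono
  intro y hy
  have := hR hy
  rw [mem_closedBall_zero_iff] at this ⊢
  exact (norm_le_norm_pt s y).trans this

lemma sec_usc24 {u : E} (hu : ‖u‖ = 1) {K : Set E} (hK : IsCompact K) (z : ℝ) {r : ℝ≥0∞}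
    (hr : sec u K z < r) : ∀ᶠ z' in 𝓝 z, sec u K z' < r := by
  obtain ⟨U, hKU, hU, hUr⟩ := (sec_compact hu hK z).exists_isOpen_lt_of_lt r hr
  obtain ⟨R, hR⟩ := hK.isBounded.subset_closedBall 0
  -- the bad heights
  have hcomp : IsCompact {p : ℝ × (ℝ ∙ u)ᗮ | prodMap u p ∈ K ∧ p.2 ∉ U} := by
    refine (isCompact_Icc (a := -R) (b := R)).prod (isCompact_closedBall (0 : (ℝ ∙ u)ᗮ) R)
      |>.of_isClosed_subset ?_ ?_
    · exact (hK.isClosed.preimage (continuous_prodMap u)).inter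
        (hU.isClosed_compl.preimage continuous_snd)
    · rintro ⟨s, y⟩ ⟨h1, _⟩
      have h2 := hR h1
      rw [mem_closedBall_zero_iff] at h2
      refine ⟨abs_le.1 ((abs_le_norm_pt hu s y).trans h2), ?_⟩
      rw [mem_closedBall_zero_iff]
      exact (norm_le_norm_pt s y).trans h2
  have hcl : IsClosed (Prod.fst '' {p : ℝ × (ℝ ∙ u)ᗮ | prodMap u p ∈ K ∧ p.2 ∉ U}) :=
    (hcomp.image continuous_fst).isClosed
  have hz : z ∉ Prod.fst '' {p : ℝ × (ℝ ∙ u)ᗮ | prodMap u p ∈ K ∧ p.2 ∉ U} := by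
    rintro ⟨⟨s, y⟩, ⟨h1, h2⟩, rfl⟩
    exact h2 (hKU h1)
  filter_upwards [hcl.isOpen_compl.mem_nhds hz] with z' hz'
  refine lt_of_le_of_lt (measure_mono ?_) hUr
  intro y hy
  by_contra hyU
  exact hz' ⟨(z', y), ⟨hy, hyU⟩, rfl⟩

/-- real section function -/
noncomputable def rs (u : E) (K : Set E) (s : ℝ) : ℝ := (sec u K s).toReal

lemma rs_usc {u : E} (hu : ‖u‖ = 1) {K : Set E} (hK : IsCompact K) :
    UpperSemicontinuous (rs u K) := by
  intro z y hy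
  have h1 : sec u K z < ENNReal.ofReal y :=
    (ENNReal.lt_ofReal_iff_toReal_lt (sec_lt_top hu hK z).ne).2 hy
  filter_upwards [sec_usc24 hu hK z h1] with z' hz'
  exact (ENNReal.lt_ofReal_iff_toReal_lt (sec_lt_top hu hK z').ne).1 hz'

lemma half_add {K : Set E} (hK : Convex ℝ K) : (1 / 2 : ℝ) • (K + K) ⊆ K := by
  rintro x ⟨y, ⟨p, hp, q, hq, rfl⟩, rfl⟩
  have := hK hp hq (by norm_num : (0 : ℝ) ≤ 1 / 2) (by norm_num : (0 : ℝ) ≤ 1 / 2) (by norm_num)
  show (1 / 2 : ℝ) • (p + q) ∈ K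
  rwa [smul_add]

lemma rs_mid {u : E} (hu : ‖u‖ = 1) {K L : Set E} (hK : IsCompact K) (hL : IsCompact L) (s t : ℝ) :
    rs u K s * rs u L t ≤ rs u ((1 / 2 : ℝ) • (K + L)) ((s + t) / 2) ^ 2 := by
  have h := sec_mid hu hK hL s t
  have hc : IsCompact ((1 / 2 : ℝ) • (K + L)) := (hK.add hL).smul _
  have h2 := ENNReal.toReal_mono (ENNReal.pow_ne_top (sec_lt_top hu hc _).ne) h
  rwa [ENNReal.toReal_mul, ENNReal.toReal_pow] at h2

lemma rs_mono {u : E} (hu : ‖u‖ = 1) {K L : Set E} (hL : IsCompact L) (h : K ⊆ L) (s : ℝ) :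
    rs u K s ≤ rs u L s :=
  ENNReal.toReal_mono (sec_lt_top hu hL s).ne (sec_mono u h s)

lemma rs_nonneg (u : E) (K : Set E) (s : ℝ) : 0 ≤ rs u K s := ENNReal.toReal_nonneg

lemma rs_logc {u : E} (hu : ‖u‖ = 1) {K : Set E} (hK : IsCompact K) (hc : Convex ℝ K)
    (s s' a b : ℝ) (ha : 0 < a) (hb : 0 < b) (hab : a + b = 1) :
    rs u K s ^ a * rs u K s' ^ b ≤ rs u K (a * s + b * s') := by
  refine logc (rs_nonneg u K) (rs_usc hu hK) ?_ s s' a b ha hb hab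
  intro s t
  refine (rs_mid hu hK hK s t).trans ?_
  exact pow_le_pow_left₀ (rs_nonneg _ _ _) (rs_mono hu hK (half_add hc) _) 2

lemma rs_lev {u : E} (hu : ‖u‖ = 1) {K : Set E} (hK : IsCompact K) (hc : Convex ℝ K)
    (l : ℝ) (hl : 0 < l) : Convex ℝ {s | l < rs u K s} := by
  rw [convex_iff_forall_pos]
  intro s hs s' hs' a b ha hb hab
  have h1 := rs_logc hu hK hc s s' a b ha hb hab
  have h2 : l ^ a * l ^ b < rs u K s ^ a * rs u K s' ^ b :=
    mul_lt_mul'' (Real.rpow_lt_rpow hl.le hs ha) (Real.rpow_lt_rpow hl.le hs' hb)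
      (by positivity) (by positivity)
  rw [← Real.rpow_add hl, hab, Real.rpow_one] at h2
  exact h2.trans_le h1

lemma ofReal_rs {u : E} (hu : ‖u‖ = 1) {K : Set E} (hK : IsCompact K) (s : ℝ) :
    ENNReal.ofReal (rs u K s) = sec u K s := ENNReal.ofReal_toReal (sec_lt_top hu hK s).ne

lemma sec_pos24 {u : E} (hu : ‖u‖ = 1) {K : Set E} {x : E} (hx : x ∈ interior K) :
    0 < sec u K ⟪u, x⟫ := by
  have hcont : Continuous (fun y : (ℝ ∙ u)ᗮ => ⟪u, x⟫ • u + (y : E)) := by fun_prop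
  have hopen : IsOpen ((fun y : (ℝ ∙ u)ᗮ => ⟪u, x⟫ • u + (y : E)) ⁻¹' interior K) :=
    isOpen_interior.preimage hcont
  have hne : ((fun y : (ℝ ∙ u)ᗮ => ⟪u, x⟫ • u + (y : E)) ⁻¹' interior K).Nonempty := by
    have hxp : x - ⟪u, x⟫ • u ∈ (ℝ ∙ u)ᗮ := by
      rw [mem_perp_iff, inner_sub_right, inner_smul_right, real_inner_self_eq_norm_sq, hu]
      ring
    refine ⟨⟨_, hxp⟩, ?_⟩
    show ⟪u, x⟫ • u + (x - ⟪u, x⟫ • u) ∈ interior K
    rwa [add_sub_cancel]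
  exact (hopen.measure_pos volume hne).trans_le (measure_mono (preimage_mono interior_subset))

/-- symmetry of the section function -/
lemma exists_c {K : Set E} (hK : IsCompact K) (hc : Convex ℝ K) (hi : (interior K).Nonempty)
    (h : volume ((1 / 2 : ℝ) • (K + -K)) ≤ volume K) {u : E} (hu : ‖u‖ = 1) :
    ∃ c : ℝ, (∀ᵐ s, rs u K (2 * c - s) = rs u K s) ∧
      sSup {s | 0 < rs u K s} + sInf {s | 0 < rs u K s} = 2 * c := by
  obtain ⟨R, hR⟩ := hK.isBounded.subset_closedBall 0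
  have hD : IsCompact ((1 / 2 : ℝ) • (K + -K)) := (hK.add hK.neg).smul _
  have hDc : Convex ℝ ((1 / 2 : ℝ) • (K + -K)) := (hc.add hc.neg).smul _
  refine sym1 (h := rs u ((1 / 2 : ℝ) • (K + -K))) (R := R)
    (C := (volume (Metric.closedBall (0 : (ℝ ∙ u)ᗮ) R)).toReal)
    (rs_nonneg u K) (rs_nonneg u _) (rs_logc hu hK hc) (rs_lev hu hD hDc) ?_ ?_ ?_ ?_ ?_
  · intro s s'
    have h1 := rs_mid hu hK hK.neg s (-s')
    have h2 : rs u (-K) (-s') = rs u K s' := by unfold rs; rw [sec_neg]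
    rw [h2, show (s + -s') / 2 = (s - s') / 2 by ring] at h1
    exact Real.sqrt_le_iff.2 ⟨rs_nonneg _ _ _, h1⟩
  · intro s hs
    apply sec_bd hu hR
    intro h0
    apply hs
    unfold rs
    rw [h0]; simp
  · intro s
    exact ENNReal.toReal_mono (isCompact_closedBall _ _).measure_lt_top.ne (sec_le_ball hR s)
  · simp_rw [ofReal_rs hu hK, ofReal_rs hu hD]
    rw [lintegral_sec hu hK.isClosed.measurableSet, lintegral_sec hu hD.isClosed.measurableSet]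
    exact h
  · obtain ⟨x, hx⟩ := hi
    exact ⟨⟪u, x⟫, ENNReal.toReal_pos (sec_pos24 hu hx).ne' (sec_lt_top hu hK _).ne⟩

end Pool.Mink24
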