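import Mathlib
import Pool.Agent.Mink24.Sym

set_option autoImplicit false
set_option linter.unusedSectionVars false

open MeasureTheory Set Filter Topology
open scoped Pointwise ENNReal RealInnerProductSpace

namespace Pool.Mink24

open PT57

variable {E : Type*} [NormedAddCommGroup E] [InnerProductSpace ℝ E] [FiniteDimensional ℝ E]
  [MeasurableSpace E] [BorelSpace E]

lemma sec_inter {u : E} (hu : ‖u‖ = 1) (K : Set E) (B : Set ℝ) (s : ℝ) :
    sec u ((fun x => ⟪u, x⟫) ⁻¹' B ∩ K) s = B.indicator (sec u K) s := by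
  unfold sec
  by_cases hs : s ∈ B
  · rw [indicator_of_mem hs]
    congr 1
    ext y
    simp only [mem_preimage, mem_inter_iff, inner_pt hu, hs, true_and]
  · rw [indicator_of_notMem hs]
    convert measure_empty (μ := (volume : Measure (ℝ ∙ u)ᗮ))
    ext y
    simp only [mem_preimage, mem_inter_iff, inner_pt hu, hs, false_and, mem_empty_iff_false]

lemma map_inner {u : E} (hu : ‖u‖ = 1) {K : Set E} (hK : MeasurableSet K) :
    (volume.restrict K).map (fun x => ⟪u, x⟫) = (volume : Measure ℝ).withDensity (sec u K) := by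
  have hm : Measurable (fun x : E => ⟪u, x⟫) := by fun_prop
  ext B hB
  rw [Measure.map_apply hm hB, Measure.restrict_apply (hm hB), withDensity_apply _ hB,
    ← lintegral_sec hu ((hm hB).inter hK), ← lintegral_indicator hB]
  exact lintegral_congr fun s => sec_inter hu K B s

lemma integral_inner_eq {u : E} (hu : ‖u‖ = 1) {K : Set E} (hK : IsCompact K) :
    ∫ x in K, ⟪u, x⟫ = ∫ s, rs u K s * s := by
  have hm : Measurable (fun x : E => ⟪u, x⟫) := by fun_prop
  have h1 : ∫ s, s ∂((volume.restrict K).map (fun x => ⟪u, x⟫)) = ∫ x in K, ⟪u, x⟫ :=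
    integral_map hm.aemeasurable (by fun_prop)
  rw [← h1, map_inner hu hK.isClosed.measurableSet,
    integral_withDensity_eq_integral_toReal_smul (measurable_sec u hK.isClosed.measurableSet)
      (Eventually.of_forall fun s => sec_lt_top hu hK s)]
  rfl

lemma integrable_rs {u : E} (hu : ‖u‖ = 1) {K : Set E} (hK : IsCompact K) :
    Integrable (rs u K) := by
  have hm : Measurable (rs u K) := (measurable_sec u hK.isClosed.measurableSet).ennreal_toReal
  refine ⟨hm.aestronglyMeasurable, ?_⟩
  rw [hasFiniteIntegral_iff_ofReal (Eventually.of_forall fun s => rs_nonneg u K s)]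
  simp_rw [ofReal_rs hu hK]
  rw [lintegral_sec hu hK.isClosed.measurableSet]
  exact hK.measure_lt_top

lemma integral_rs {u : E} (hu : ‖u‖ = 1) {K : Set E} (hK : IsCompact K) :
    ∫ s, rs u K s = (volume K).toReal := by
  rw [integral_eq_lintegral_of_nonneg_ae (Eventually.of_forall fun s => rs_nonneg u K s)
    (integrable_rs hu hK).aestronglyMeasurable]
  simp_rw [ofReal_rs hu hK]
  rw [lintegral_sec hu hK.isClosed.measurableSet]

lemma integrable_rs_mul {u : E} (hu : ‖u‖ = 1) {K : Set E} (hK : IsCompact K) :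
    Integrable (fun s => rs u K s * s) := by
  obtain ⟨R, hR⟩ := hK.isBounded.subset_closedBall 0
  have hm : Measurable (rs u K) := (measurable_sec u hK.isClosed.measurableSet).ennreal_toReal
  refine Integrable.mono' ((integrable_rs hu hK).mul_const R)
    (hm.mul measurable_id).aestronglyMeasurable (Eventually.of_forall fun s => ?_)
  rw [norm_mul, Real.norm_of_nonneg (rs_nonneg u K s), Real.norm_eq_abs]
  by_cases h0 : rs u K s = 0
  · rw [h0]; simp
  · apply mul_le_mul_of_nonneg_left _ (rs_nonneg u K s)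
    apply sec_bd hu hR
    intro h
    apply h0
    unfold rs
    rw [h]; simp

lemma centroid {K : Set E} (hK : IsCompact K) {u : E} (hu : ‖u‖ = 1) {c : ℝ}
    (hc : ∀ᵐ s, rs u K (2 * c - s) = rs u K s) :
    ∫ x in K, ⟪u, x⟫ = c * (volume K).toReal := by
  rw [integral_inner_eq hu hK]
  have h1 : ∫ s, rs u K (2 * c - s) * (2 * c - s) = ∫ s, rs u K s * s :=
    integral_sub_left_eq_self (fun s => rs u K s * s) volume (2 * c)
  have h2 : ∫ s, rs u K (2 * c - s) * (2 * c - s) = ∫ s, (2 * c * rs u K s - rs u K s * s) := by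
    apply integral_congr_ae
    filter_upwards [hc] with s hs
    rw [hs]; ring
  rw [integral_sub ((integrable_rs hu hK).const_mul _) (integrable_rs_mul hu hK),
    integral_const_mul, integral_rs hu hK] at h2
  linarith

theorem symmetric_of_vol_le {K : Set E} (hK : IsCompact K) (hc : Convex ℝ K)
    (hi : (interior K).Nonempty) (h : volume ((1 / 2 : ℝ) • (K + -K)) ≤ volume K) :
    ∃ c : E, ∀ x ∈ K, c - x ∈ K := by
  obtain ⟨x0, hx0⟩ := hi
  have hvol : 0 < (volume K).toReal :=
    ENNReal.toReal_pos ((isOpen_interior.measure_pos volume ⟨x0, hx0⟩).trans_le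
      (measure_mono interior_subset)).ne' hK.measure_lt_top.ne
  set G : E := ∫ x in K, x with hG
  refine ⟨(2 / (volume K).toReal) • G, ?_⟩
  intro x hx
  by_contra hcon
  -- separation
  obtain ⟨φ, r, h1, h2⟩ := geometric_hahn_banach_closed_point hc hK.isClosed hcon
  obtain ⟨w, hw⟩ : ∃ w : E, ∀ y, φ y = ⟪w, y⟫ :=
    ⟨(InnerProductSpace.toDual ℝ E).symm φ, fun y => by simp⟩
  have hw0 : w ≠ 0 := by
    rintro rfl
    have := h1 x hx
    rw [hw, inner_zero_left] at this
    rw [hw, inner_zero_left] at h2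
    linarith
  have hn : 0 < ‖w‖ := norm_pos_iff.2 hw0
  set u : E := (‖w‖)⁻¹ • w with hu_def
  have hu : ‖u‖ = 1 := by rw [hu_def, norm_smul, norm_inv, norm_norm]; field_simp
  have hφu : ∀ y, ⟪u, y⟫ = ‖w‖⁻¹ * φ y := fun y => by rw [hu_def, real_inner_smul_left, hw]
  have hsep : ∀ y ∈ K, ⟪u, y⟫ < ‖w‖⁻¹ * r := fun y hy => by
    rw [hφu]; exact mul_lt_mul_of_pos_left (h1 y hy) (inv_pos.2 hn)
  have hsep2 : ‖w‖⁻¹ * r < ⟪u, (2 / (volume K).toReal) • G - x⟫ := by
    rw [hφu]; exact mul_lt_mul_of_pos_left h2 (inv_pos.2 hn)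
  obtain ⟨c, hc1, hc2⟩ := exists_c hK hc ⟨x0, hx0⟩ h hu
  have hcent := centroid hK hu hc1
  have hid : IntegrableOn (fun x : E => x) K volume := continuous_id.continuousOn.integrableOn_compact hK
  have hG2 : ∫ x in K, ⟪u, x⟫ = ⟪u, G⟫ := integral_inner hid u
  have hG3 : ⟪u, (2 / (volume K).toReal) • G⟫ = 2 * c := by
    rw [inner_smul_right, ← hG2, hcent]; field_simp
  rw [inner_sub_right, hG3] at hsep2
  -- sup and inf of the support of the section function
  set S : Set ℝ := {s | 0 < rs u K s} with hS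
  have hSne : S.Nonempty :=
    ⟨⟪u, x0⟫, ENNReal.toReal_pos (sec_pos24 hu hx0).ne' (sec_lt_top hu hK _).ne⟩
  have hmem : ∀ s ∈ S, ∃ y ∈ K, ⟪u, y⟫ = s := by
    intro s hs
    have : sec u K s ≠ 0 := by
      intro h0
      have hs' : 0 < rs u K s := hs
      unfold rs at hs'
      rw [h0] at hs'
      simp at hs'
    obtain ⟨y, hy⟩ := nonempty_of_measure_ne_zero this
    exact ⟨_, hy, inner_pt hu s y⟩
  have hsup : sSup S ≤ ‖w‖⁻¹ * r := by
    apply csSup_le hSne
    intro s hs
    obtain ⟨y, hy, rfl⟩ := hmem s hs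
    exact (hsep y hy).le
  have hbb : BddBelow S := by
    obtain ⟨R, hR⟩ := hK.isBounded.subset_closedBall 0
    refine ⟨-R, ?_⟩
    intro s hs
    have : sec u K s ≠ 0 := by
      intro h0
      have hs' : 0 < rs u K s := hs
      unfold rs at hs'
      rw [h0] at hs'
      simp at hs'
    exact (abs_le.1 (sec_bd hu hR this)).1
  -- `⟪u, x⟫ ≥ sInf S`
  have hinf : sInf S ≤ ⟪u, x⟫ := by
    have hlim : Tendsto (fun t : ℝ => ⟪u, x + t • (x0 - x)⟫) (𝓝[>] 0) (𝓝 ⟪u, x⟫) := by
      have hcont : Continuous (fun t : ℝ => ⟪u, x + t • (x0 - x)⟫) := by fun_prop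
      have := hcont.tendsto 0
      simp only [zero_smul, add_zero] at this
      exact this.mono_left nhdsWithin_le_nhds
    refine ge_of_tendsto hlim ?_
    filter_upwards [Ioo_mem_nhdsGT (show (0 : ℝ) < 1 by norm_num)] with t ht
    apply csInf_le hbb
    have hmemi : x + t • (x0 - x) ∈ interior K := by
      have := hc.add_smul_sub_mem_interior hx hx0 ⟨ht.1, ht.2.le⟩
      exact this
    exact ENNReal.toReal_pos (sec_pos24 hu hmemi).ne' (sec_lt_top hu hK _).ne
  linarith

end Pool.Mink24
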